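import Mathlib

namespace Pool.Agent.Results.MP_9704e3_al.InfiniteWidth

/-- The map underlying the class transposition `τ_{i(k),j(k)}`. -/
def tauFun (k i j n : ℤ) : ℤ :=
  if n ≡ i [ZMOD k] then n + (j - i) else if n ≡ j [ZMOD k] then n - (j - i) else n

/-- The set `H` of all horizontal class transpositions. -/
def H : Set (Equiv.Perm ℤ) :=
  {σ | ∃ k i j : ℤ, 2 ≤ k ∧ 0 ≤ i ∧ i < j ∧ j ≤ k - 1 ∧ ∀ n : ℤ, σ n = tauFun k i j n}

/-- The group `CT_∞` generated by `H`. -/
def CTinf : Subgroup (Equiv.Perm ℤ) := Subgroup.closure H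

lemma modEq_iff {k a b : ℤ} (ha : 0 ≤ a) (ha' : a < k) (hb : 0 ≤ b) (hb' : b < k) :
    a ≡ b [ZMOD k] ↔ a = b := by
  unfold Int.ModEq
  rw [Int.emod_eq_of_lt ha ha', Int.emod_eq_of_lt hb hb']

lemma tau_invol {k i j : ℤ} (hi : 0 ≤ i) (hij : i < j) (hj : j ≤ k - 1) :
    Function.Involutive (tauFun k i j) := by
  have hne : ¬ j ≡ i [ZMOD k] := by
    rw [modEq_iff (by omega) (by omega) hi (by omega)]; omega
  intro n
  by_cases h1 : n ≡ i [ZMOD k]
  · have h2 : n + (j - i) ≡ j [ZMOD k] := by
      have := h1.add_right (j - i)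
      rwa [show i + (j - i) = j by ring] at this
    have h3 : ¬ n + (j - i) ≡ i [ZMOD k] := fun h => hne (h2.symm.trans h)
    have e : tauFun k i j n = n + (j - i) := by simp only [tauFun, if_pos h1]
    rw [e]
    simp only [tauFun, if_neg h3, if_pos h2]
    ring
  · by_cases h2 : n ≡ j [ZMOD k]
    · have h3 : n - (j - i) ≡ i [ZMOD k] := by
        have := h2.sub_right (j - i)
        rwa [show j - (j - i) = i by ring] at this
      have e : tauFun k i j n = n - (j - i) := by simp only [tauFun, if_neg h1, if_pos h2]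
      rw [e]
      simp only [tauFun, if_pos h3]
      ring
    · have e : tauFun k i j n = n := by simp only [tauFun, if_neg h1, if_neg h2]
      rw [e, e]

lemma disp (l : List (Equiv.Perm ℤ)) (hl : ∀ σ ∈ l, σ ∈ H) :
    ∃ D : Finset ℤ, D.card ≤ 3 ^ l.length ∧ ∀ x, l.prod x - x ∈ D := by
  induction l with
  | nil => exact ⟨{0}, by simp, by simp⟩
  | cons σ l ih =>
    obtain ⟨D, hD, hx⟩ := ih (fun τ hτ => hl τ (List.mem_cons_of_mem _ hτ))
    obtain ⟨k, i, j, -, -, -, -, hσ⟩ := hl σ List.mem_cons_self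
    refine ⟨(D ∪ D.image (· + (j - i))) ∪ D.image (· - (j - i)), ?_, ?_⟩
    · have h1 := Finset.card_union_le (D ∪ D.image (· + (j - i))) (D.image (· - (j - i)))
      have h2 := Finset.card_union_le D (D.image (· + (j - i)))
      have h3 : (D.image (· + (j - i))).card ≤ D.card := Finset.card_image_le
      have h4 : (D.image (· - (j - i))).card ≤ D.card := Finset.card_image_le
      rw [List.length_cons, pow_succ]
      omega
    · intro x
      rw [List.prod_cons, Equiv.Perm.mul_apply, hσ]
      have h := hx x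
      simp only [Finset.mem_union, Finset.mem_image]
      unfold tauFun
      split_ifs
      · exact Or.inl (Or.inr ⟨_, h, by ring⟩)
      · exact Or.inr ⟨_, h, by ring⟩
      · exact Or.inl (Or.inl h)

lemma exists_rev (m : ℕ) : ∀ s : ℕ, s ≤ m → ∃ g ∈ CTinf,
    (∀ x : ℤ, 0 ≤ x → x < s → g x = 2 * m - 1 - x) ∧
      ∀ x : ℤ, (s : ℤ) ≤ x → x ≤ 2 * m - 1 - s → g x = x := by
  intro s
  induction s with
  | zero => exact fun _ => ⟨1, one_mem _, fun x h1 h2 => by omega, fun x _ _ => rfl⟩
  | succ s ih =>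
    intro hs
    obtain ⟨g, hg, h1, h2⟩ := ih (by omega)
    have hinv : Function.Involutive (tauFun (2 * m) s (2 * m - 1 - s)) :=
      tau_invol (by omega) (by omega) (by omega)
    have hmem : hinv.toPerm _ ∈ CTinf :=
      Subgroup.subset_closure ⟨2 * m, s, 2 * m - 1 - s, by omega, by omega, by omega, by omega,
        fun _ => rfl⟩
    have hfix : ∀ x : ℤ, 0 ≤ x → x < 2 * m → x ≠ s → x ≠ 2 * m - 1 - s →
        tauFun (2 * m) s (2 * m - 1 - s) x = x := by
      intro x a b c d
      have e1 : ¬ x ≡ s [ZMOD 2 * m] := by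
        rw [modEq_iff a b (by omega) (by omega)]; exact c
      have e2 : ¬ x ≡ 2 * m - 1 - s [ZMOD 2 * m] := by
        rw [modEq_iff a b (by omega) (by omega)]; exact d
      simp only [tauFun, if_neg e1, if_neg e2]
    refine ⟨g * hinv.toPerm _, mul_mem hg hmem, ?_, ?_⟩
    · intro x a b
      rw [Equiv.Perm.mul_apply, Function.Involutive.coe_toPerm]
      by_cases hx : x = s
      · subst hx
        have e : tauFun (2 * m) s (2 * m - 1 - s) s = 2 * m - 1 - s := by
          simp only [tauFun, if_pos (Int.ModEq.refl (s : ℤ))]; ring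
        rw [e]
        exact h2 _ (by omega) le_rfl
      · rw [hfix x a (by push_cast at b; omega) hx (by push_cast at b; omega)]
        exact h1 x a (by push_cast at b; omega)
    · intro x a b
      push_cast at a b
      rw [Equiv.Perm.mul_apply, Function.Involutive.coe_toPerm,
        hfix x (by omega) (by omega) (by omega) (by omega)]
      exact h2 x (by omega) (by omega)

theorem result : ∀ n : ℕ, ∃ g ∈ CTinf, ¬ ∃ l : List (Equiv.Perm ℤ),
    l.length ≤ n ∧ (∀ σ ∈ l, σ ∈ H) ∧ l.prod = g := by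
  intro n
  obtain ⟨g, hg, h1, -⟩ := exists_rev (3 ^ n + 1) (3 ^ n + 1) le_rfl
  refine ⟨g, hg, ?_⟩
  rintro ⟨l, hl, hH, rfl⟩
  obtain ⟨D, hD, hx⟩ := disp l hH
  have hpow : 3 ^ l.length ≤ 3 ^ n := Nat.pow_le_pow_right (by norm_num) hl
  set m := 3 ^ n + 1 with hm
  have hcard : (Finset.range m).card ≤ D.card := by
    refine Finset.card_le_card_of_injOn (fun t : ℕ => (2 * m - 1 - 2 * t : ℤ)) ?_ ?_
    · intro t ht
      have ht' : t < m := by simpa using ht
      have := hx t
      rw [h1 t (by omega) (by omega)] at this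
      have e : (2 * m - 1 - 2 * t : ℤ) = 2 * m - 1 - t - t := by ring
      simp only [Finset.mem_coe]
      rw [e]; exact this
    · intro a _ b _ h
      simp only at h
      omega
  rw [Finset.card_range] at hcard
  omega

end Pool.Agent.Results.MP_9704e3_al.InfiniteWidth
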